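import Pool.Agent.Lib_MP_3de5be_sic.Base
import Pool.Agent.Lib_MP_1c78a5_ghost.WH

/-!
# A Weyl-Heisenberg covariant SIC gives equiangular tight frames with `d ^ 2` vectors

If there is a Weyl-Heisenberg covariant SIC fiducial in dimension `d` then the Welch bound is
attained by `c^frame_ℂ(d ^ 2, d)` and by `c^frame_ℂ(d ^ 2, d ^ 2 - d)`.
-/

set_option autoImplicit false

namespace SicEtf

open Module Finset
open scoped ComplexConjugate

/-- If there is a unit norm system of `N` vectors in `ℂ^d` whose inner products are at most the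
Welch bound, then the Welch bound is attained. -/
theorem cFrame_eq {N d : ℕ} (hd : 1 ≤ d) (hdN : d ≤ N) (hN : 2 ≤ N)
    (g : Fin N → EuclideanSpace ℂ (Fin d)) (hunit : ∀ l, ‖g l‖ = 1)
    (hang : ∀ l m, l ≠ m → ‖(inner ℂ (g l) (g m) : ℂ)‖ ^ 2 ≤ ((N : ℝ) - d) / (d * ((N : ℝ) - 1))) :
    cFrame N d = Real.sqrt (((N : ℝ) - d) / (d * ((N : ℝ) - 1))) := by
  have hdR : (0 : ℝ) < d := by exact_mod_cast hd
  have hNdR : (d : ℝ) ≤ N := by exact_mod_cast hdN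
  have hN1R : (0 : ℝ) < (N : ℝ) - 1 := by
    have : (1 : ℝ) < N := by exact_mod_cast (by omega : 1 < N)
    linarith
  have hpos : 0 ≤ ((N : ℝ) - d) / (d * ((N : ℝ) - 1)) := by
    apply div_nonneg (by linarith) (mul_pos hdR hN1R).le
  obtain ⟨hang', htight⟩ := welch_eq hd hN g _ rfl hunit hang
  have hNC : (N : ℂ) ≠ 0 := by exact_mod_cast (by omega : N ≠ 0)
  have hdC : (d : ℂ) ≠ 0 := by exact_mod_cast (by omega : d ≠ 0)
  have hspan : Submodule.span ℂ (Set.range g) = ⊤ := by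
    rw [eq_top_iff]
    intro v _
    have h1 : v = ((d : ℂ) / N) • ∑ l, (inner ℂ (g l) v : ℂ) • g l := by
      rw [htight v, smul_smul, div_mul_div_comm, mul_comm (d : ℂ), div_self (mul_ne_zero hNC hdC),
        one_smul]
    rw [h1]
    refine Submodule.smul_mem _ _ (Submodule.sum_mem _ fun l _ => Submodule.smul_mem _ _ ?_)
    exact Submodule.subset_span ⟨l, rfl⟩
  have hcoh : coherence g = Real.sqrt (((N : ℝ) - d) / (d * ((N : ℝ) - 1))) := by
    unfold coherence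
    have : Nonempty {p : Fin N × Fin N // p.1 ≠ p.2} :=
      ⟨⟨(⟨0, by omega⟩, ⟨1, by omega⟩), by simp⟩⟩
    have : ∀ p : {p : Fin N × Fin N // p.1 ≠ p.2}, ‖(inner ℂ (g p.1.1) (g p.1.2) : ℂ)‖ =
        Real.sqrt (((N : ℝ) - d) / (d * ((N : ℝ) - 1))) := fun p => by
      rw [← hang' p.1.1 p.1.2 p.2, Real.sqrt_sq (norm_nonneg _)]
    rw [iSup_congr this]
    exact ciSup_const
  apply le_antisymm
  · refine csInf_le ⟨0, ?_⟩ ⟨g, hunit, hspan, hcoh⟩
    rintro m ⟨g', -, -, rfl⟩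
    exact coherence_nonneg g'
  · refine le_csInf ⟨_, g, hunit, hspan, hcoh⟩ ?_
    rintro m ⟨g', hu, -, rfl⟩
    by_contra hcon
    push Not at hcon
    have hle : ∀ l m, l ≠ m → ‖(inner ℂ (g' l) (g' m) : ℂ)‖ ^ 2 ≤
        ((N : ℝ) - d) / (d * ((N : ℝ) - 1)) := by
      intro l m hlm
      have h1 := (inner_le_coherence g' hlm).trans hcon.le
      calc _ ≤ (Real.sqrt (((N : ℝ) - d) / (d * ((N : ℝ) - 1)))) ^ 2 :=
            pow_le_pow_left₀ (norm_nonneg _) h1 2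
        _ = _ := Real.sq_sqrt hpos
    obtain ⟨h1, -⟩ := welch_eq hd hN g' _ rfl hu hle
    have h01 : (⟨0, by omega⟩ : Fin N) ≠ ⟨1, by omega⟩ := by simp
    have h2 := h1 _ _ h01
    have h3 := inner_le_coherence g' h01
    have h4 : Real.sqrt (((N : ℝ) - d) / (d * ((N : ℝ) - 1))) ≤ coherence g' := by
      rw [← h2, Real.sqrt_sq (norm_nonneg _)]
      exact h3
    linarith

/-- The same for the Naimark complement. -/
theorem cFrame_eq_compl {N d : ℕ} (hd : 1 ≤ d) (hdN : d < N) (hN : 2 ≤ N)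
    (g : Fin N → EuclideanSpace ℂ (Fin d)) (hunit : ∀ l, ‖g l‖ = 1)
    (hang : ∀ l m, l ≠ m → ‖(inner ℂ (g l) (g m) : ℂ)‖ ^ 2 ≤ ((N : ℝ) - d) / (d * ((N : ℝ) - 1))) :
    cFrame N (N - d) = Real.sqrt (((N : ℝ) - (N - d : ℕ)) / ((N - d : ℕ) * ((N : ℝ) - 1))) := by
  obtain ⟨hang', htight⟩ := welch_eq hd hN g _ rfl hunit hang
  obtain ⟨E', y, hE', hy1, hy2, -⟩ := compl hd hdN (by simp) g _ rfl hunit hang' htight
  let B := (stdOrthonormalBasis ℂ E').reindex (finCongr hE')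
  refine cFrame_eq (by omega) (by omega) hN (fun l => B.repr (y l)) (fun l => ?_) fun l m hlm => ?_
  · rw [LinearIsometryEquiv.norm_map]
    exact hy1 l
  · rw [LinearIsometryEquiv.inner_map_map]
    exact (hy2 l m hlm).le

section fiducial

open Ghost

variable {d : ℕ} [NeZero d]

/-- `D_{a,b} φ` in coordinates. -/
theorem disp_apply (a b : ZMod d) (φ : ZMod d → ℂ) (i : ZMod d) :
    (displacement d a b).mulVec φ i = ZMod.stdAddChar (b * (i - a)) * φ (i - a) := by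
  unfold displacement
  rw [← Matrix.mulVec_mulVec, shift_mulVec]
  have ha : ((a.val : ℕ) : ZMod d) = a := ZMod.natCast_zmod_val a
  rw [ha]
  show (clockOp d ^ b.val).mulVec φ (i - a) = _
  rw [clock_mulVec b.val φ (i - a)]
  congr 1
  have h1 : b * (i - a) = (((b.val * (i - a).val : ℕ) : ℤ) : ZMod d) := by
    push_cast
    rw [ZMod.natCast_zmod_val, ZMod.natCast_zmod_val]
  rw [h1, ZMod.stdAddChar_coe, ← pow_mul, ← Complex.exp_nat_mul]
  congr 1
  push_cast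
  ring

/-- the `d ^ 2` vectors `D_{a,b} φ` -/
noncomputable def orb (φ : ZMod d → ℂ) (k : ZMod d × ZMod d) : EuclideanSpace ℂ (Fin d) :=
  WithLp.toLp 2 fun i => (displacement d k.1 k.2).mulVec φ (ZMod.finEquiv d i)

theorem inner_orb (φ : ZMod d → ℂ) (k l : ZMod d × ZMod d) :
    ‖(inner ℂ (orb φ k) (orb φ l) : ℂ)‖ = ‖braket φ (displacement d (l.1 - k.1) (l.2 - k.2)) φ‖ := by
  have h1 : (inner ℂ (orb φ k) (orb φ l) : ℂ) =
      ∑ i : ZMod d, (displacement d l.1 l.2).mulVec φ i * conj ((displacement d k.1 k.2).mulVec φ i) := by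
    rw [PiLp.inner_apply]
    unfold orb
    exact Fintype.sum_equiv (ZMod.finEquiv d).toEquiv _ _ fun i => rfl
  have h2 : braket φ (displacement d (l.1 - k.1) (l.2 - k.2)) φ =
      ∑ i : ZMod d, conj (φ i) * (displacement d (l.1 - k.1) (l.2 - k.2)).mulVec φ i := rfl
  have hn : ∀ z : ZMod d, ‖(ZMod.stdAddChar z : ℂ)‖ = 1 := fun z => AddChar.norm_apply _ _
  have hc : ∀ z : ZMod d, conj (ZMod.stdAddChar z : ℂ) = ZMod.stdAddChar (-z) := fun z => by
    rw [AddChar.map_neg_eq_conj]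
  have h3 : (∑ i : ZMod d, (displacement d l.1 l.2).mulVec φ i *
      conj ((displacement d k.1 k.2).mulVec φ i)) =
      (ZMod.stdAddChar (k.2 * (k.1 - l.1)) : ℂ) *
        braket φ (displacement d (l.1 - k.1) (l.2 - k.2)) φ := by
    rw [h2, mul_sum]
    refine Fintype.sum_equiv (Equiv.subRight k.1) _ _ fun i => ?_
    rw [disp_apply, disp_apply, disp_apply, map_mul (starRingEnd ℂ), hc]
    simp only [Equiv.subRight_apply]
    have e1 : i - k.1 - (l.1 - k.1) = i - l.1 := by ring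
    rw [e1]
    have e2 : (ZMod.stdAddChar (l.2 * (i - l.1)) : ℂ) * ZMod.stdAddChar (-(k.2 * (i - k.1))) =
        ZMod.stdAddChar (k.2 * (k.1 - l.1)) * ZMod.stdAddChar ((l.2 - k.2) * (i - l.1)) := by
      rw [← AddChar.map_add_eq_mul, ← AddChar.map_add_eq_mul]
      congr 1
      ring
    linear_combination (φ (i - l.1) * conj (φ (i - k.1))) * e2
  rw [h1, h3, norm_mul, hn, one_mul]

theorem norm_orb (φ : ZMod d → ℂ) (h1 : ∑ i, ‖φ i‖ ^ 2 = 1) (k : ZMod d × ZMod d) :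
    ‖orb φ k‖ = 1 := by
  rw [EuclideanSpace.norm_eq]
  have : (∑ i, ‖(orb φ k).ofLp i‖ ^ 2) = 1 := by
    rw [← h1]
    have e1 : (∑ i, ‖(orb φ k).ofLp i‖ ^ 2) = ∑ i : ZMod d, ‖(displacement d k.1 k.2).mulVec φ i‖ ^ 2 :=
      Fintype.sum_equiv (ZMod.finEquiv d).toEquiv _ _ fun i => rfl
    rw [e1]
    refine Fintype.sum_equiv (Equiv.subRight k.1) _ _ fun i => ?_
    rw [disp_apply, norm_mul, AddChar.norm_apply, one_mul]
    rfl
  rw [this, Real.sqrt_one]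

/-- A Weyl-Heisenberg covariant SIC fiducial gives two attained Welch bounds. -/
theorem of_fiducial (hd : 2 ≤ d) (φ : ZMod d → ℂ) (h1 : ∑ i, ‖φ i‖ ^ 2 = 1)
    (h2 : ∀ a b : ZMod d, ¬(a = 0 ∧ b = 0) →
      ‖braket φ (displacement d a b) φ‖ ^ 2 = 1 / ((d : ℝ) + 1)) :
    cFrame (d ^ 2) d = Real.sqrt ((((d ^ 2 : ℕ) : ℝ) - d) / (d * (((d ^ 2 : ℕ) : ℝ) - 1))) ∧
      cFrame (d ^ 2) (d ^ 2 - d) =
        Real.sqrt ((((d ^ 2 : ℕ) : ℝ) - (d ^ 2 - d : ℕ)) /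
          ((d ^ 2 - d : ℕ) * (((d ^ 2 : ℕ) : ℝ) - 1))) := by
  have hcard : Fintype.card (ZMod d × ZMod d) = d ^ 2 := by
    rw [Fintype.card_prod, ZMod.card, pow_two]
  let e : Fin (d ^ 2) ≃ ZMod d × ZMod d := (Fintype.equivFinOfCardEq hcard).symm
  have hdd : d < d ^ 2 := by nlinarith
  have hu : ∀ l, ‖orb φ (e l)‖ = 1 := fun l => norm_orb φ h1 _
  have hdR : (2 : ℝ) ≤ d := by exact_mod_cast hd
  have hα : (((d ^ 2 : ℕ) : ℝ) - d) / (d * (((d ^ 2 : ℕ) : ℝ) - 1)) = 1 / ((d : ℝ) + 1) := by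
    push_cast
    have e1 : (d : ℝ) ≠ 0 := by linarith
    have e2 : (d : ℝ) ^ 2 - 1 ≠ 0 := by nlinarith
    have e3 : (d : ℝ) + 1 ≠ 0 := by linarith
    rw [div_eq_div_iff (mul_ne_zero e1 e2) e3]
    ring
  have ha : ∀ l m, l ≠ m → ‖(inner ℂ (orb φ (e l)) (orb φ (e m)) : ℂ)‖ ^ 2 ≤
      (((d ^ 2 : ℕ) : ℝ) - d) / (d * (((d ^ 2 : ℕ) : ℝ) - 1)) := by
    intro l m hlm
    rw [inner_orb, hα, h2]
    rintro ⟨h3, h4⟩
    apply hlm
    apply e.injective
    exact (Prod.ext (sub_eq_zero.1 h3) (sub_eq_zero.1 h4)).symm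
  exact ⟨cFrame_eq (by omega) hdd.le (by nlinarith) _ hu ha,
    cFrame_eq_compl (by omega) hdd (by nlinarith) _ hu ha⟩

end fiducial

end SicEtf
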