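import Mathlib

/-!
# Equiangular tight frames: definitions, equality in the Welch bound, Naimark complement, gap theorem

Copied from the hand-in MP_3de5be_an.Gap (helper19).
-/

set_option autoImplicit false

namespace SicEtf

open Module
open scoped ComplexOrder

/-- The coherence `max_{k ≠ l} |⟨g k, g l⟩|` of a finite system of vectors in `ℂ^d`. -/
noncomputable def coherence {N d : ℕ} (g : Fin N → EuclideanSpace ℂ (Fin d)) : ℝ :=
  ⨆ p : {p : Fin N × Fin N // p.1 ≠ p.2}, ‖inner ℂ (g p.1.1) (g p.1.2)‖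

/-- `c^frame_ℂ(N,d)`: the infimum of the coherence over all normalized frames of `N` vectors
in `ℂ^d`. -/
noncomputable def cFrame (N d : ℕ) : ℝ :=
  sInf {m : ℝ | ∃ g : Fin N → EuclideanSpace ℂ (Fin d),
    (∀ k, ‖g k‖ = 1) ∧ Submodule.span ℂ (Set.range g) = ⊤ ∧ coherence g = m}

section abstract_part

variable {E : Type*} [NormedAddCommGroup E] [InnerProductSpace ℂ E]

/-- Key injectivity statement. -/
theorem key {N d : ℕ} (hd : 2 ≤ d) (hN : 2 ≤ N) (x : Fin N → E) (α : ℝ)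
    (hα : α = ((N : ℝ) - d) / (d * ((N : ℝ) - 1)))
    (hunit : ∀ l, ‖x l‖ = 1) (hang : ∀ l m, l ≠ m → ‖(inner ℂ (x l) (x m) : ℂ)‖ ^ 2 = α)
    (htight : ∀ v : E, ∑ l, (inner ℂ (x l) v : ℂ) • x l = ((N : ℂ) / d) • v)
    (hne : N ≠ d ^ 2) (i : Fin N) (c : Fin N → ℂ) (f : E →ₗ[ℂ] ℂ) (hf : f (x i) = 0)
    (h : ∀ v : E, ∑ l, c l • ((inner ℂ (x l) v : ℂ) • x l) = f v • x i) :
    c = 0 ∧ f = 0 := by
  have hdC : (d : ℂ) ≠ 0 := by
    exact_mod_cast (by omega : d ≠ 0)
  have hNC : (N : ℂ) ≠ 0 := by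
    exact_mod_cast (by omega : N ≠ 0)
  have hN1C : (N : ℂ) - 1 ≠ 0 := by
    have : (N : ℂ) ≠ 1 := by exact_mod_cast (by omega : N ≠ 1)
    exact sub_ne_zero.mpr this
  have hd1C : (d : ℂ) - 1 ≠ 0 := by
    have : (d : ℂ) ≠ 1 := by exact_mod_cast (by omega : d ≠ 1)
    exact sub_ne_zero.mpr this
  have hαC : (α : ℂ) = ((N : ℂ) - d) / (d * ((N : ℂ) - 1)) := by
    rw [hα]; push_cast; ring
  have h1α : 1 - (α : ℂ) = (N : ℂ) * (d - 1) / (d * ((N : ℂ) - 1)) := by
    rw [hαC]; field_simp; ring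
  have h1α0 : 1 - (α : ℂ) ≠ 0 := by
    rw [h1α]
    exact div_ne_zero (mul_ne_zero hNC hd1C) (mul_ne_zero hdC hN1C)
  -- products of inner products
  have hprod : ∀ l m, (inner ℂ (x l) (x m) : ℂ) * inner ℂ (x m) (x l) =
      if l = m then 1 else (α : ℂ) := by
    intro l m
    split_ifs with hlm
    · subst hlm
      rw [inner_self_eq_norm_sq_to_K, hunit]; simp
    · rw [← inner_conj_symm (x m) (x l), Complex.mul_conj, Complex.normSq_eq_norm_sq]
      rw [hang l m hlm]
  -- the equations at `x m`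
  have heq : ∀ m, (1 - (α : ℂ)) * c m + α * ∑ l, c l =
      f (x m) * inner ℂ (x m) (x i) := by
    intro m
    have h2 := congrArg (fun w => (inner ℂ (x m) w : ℂ)) (h (x m))
    simp only [inner_sum, inner_smul_right] at h2
    rw [← h2]
    have : ∀ l, c l * ((inner ℂ (x l) (x m) : ℂ) * inner ℂ (x m) (x l)) =
        (α : ℂ) * c l + (if l = m then (1 - (α : ℂ)) * c l else 0) := by
      intro l
      rw [hprod]
      split_ifs <;> ring
    rw [Finset.sum_congr rfl (fun l _ => this l), Finset.sum_add_distrib, ← Finset.mul_sum]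
    simp
    ring
  have hC : ∑ l, c l = 0 := by
    have h3 : ∑ m, f (x m) * inner ℂ (x m) (x i) = 0 := by
      have := congrArg f (htight (x i))
      rw [map_sum, map_smul, hf] at this
      simp only [map_smul, smul_eq_mul, mul_zero] at this
      rw [← this]
      exact Finset.sum_congr rfl (fun m _ => mul_comm _ _)
    have h4 : ∑ m, ((1 - (α : ℂ)) * c m + α * ∑ l, c l) = 0 := by
      rw [Finset.sum_congr rfl (fun m _ => heq m), h3]
    rw [Finset.sum_add_distrib, ← Finset.mul_sum] at h4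
    simp only [Finset.sum_const, Finset.card_univ, Fintype.card_fin, nsmul_eq_mul] at h4
    have h5 : ((N : ℂ) / d) * ∑ l, c l = 0 := by
      have : (1 - (α : ℂ)) + N * α = (N : ℂ) / d := by
        rw [hαC]; field_simp; ring
      rw [← this, ← h4]; ring
    rcases mul_eq_zero.mp h5 with h6 | h6
    · exact absurd h6 (div_ne_zero hNC hdC)
    · exact h6
  have hcm : ∀ m, (1 - (α : ℂ)) * c m = f (x m) * inner ℂ (x m) (x i) := by
    intro m
    have := heq m
    rw [hC] at this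
    simpa using this
  have hff : ∀ v, (1 - (α : ℂ)) * f v = α * ((N : ℂ) / d) * f v := by
    intro v
    have h2 := congrArg (fun w => (inner ℂ (x i) w : ℂ)) (h v)
    simp only [inner_sum, inner_smul_right] at h2
    have hii : (inner ℂ (x i) (x i) : ℂ) = 1 := by
      rw [inner_self_eq_norm_sq_to_K, hunit]; simp
    rw [hii, mul_one] at h2
    rw [← h2, Finset.mul_sum]
    have h7 : ∀ l, (1 - (α : ℂ)) * (c l * ((inner ℂ (x l) v : ℂ) * inner ℂ (x i) (x l))) =
        α * (f (x l) * inner ℂ (x l) v) +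
          (if l = i then (1 - (α : ℂ)) * (f (x l) * inner ℂ (x l) v) else 0) := by
      intro l
      have : (1 - (α : ℂ)) * (c l * ((inner ℂ (x l) v : ℂ) * inner ℂ (x i) (x l))) =
          ((1 - (α : ℂ)) * c l) * (inner ℂ (x l) v * inner ℂ (x i) (x l)) := by ring
      rw [this, hcm]
      have : f (x l) * (inner ℂ (x l) (x i) : ℂ) * (inner ℂ (x l) v * inner ℂ (x i) (x l)) =
          ((inner ℂ (x l) (x i) : ℂ) * inner ℂ (x i) (x l)) * (f (x l) * inner ℂ (x l) v) := by ring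
      rw [this, hprod]
      split_ifs <;> ring
    rw [Finset.sum_congr rfl (fun l _ => h7 l), Finset.sum_add_distrib, ← Finset.mul_sum]
    simp only [Finset.sum_ite_eq', Finset.mem_univ, if_true, hf, zero_mul, mul_zero, add_zero]
    have h8 := congrArg f (htight v)
    rw [map_sum, map_smul] at h8
    simp only [map_smul, smul_eq_mul] at h8
    have h9 : ∑ l, f (x l) * (inner ℂ (x l) v : ℂ) = (N : ℂ) / d * f v := by
      rw [← h8]
      exact Finset.sum_congr rfl (fun m _ => mul_comm _ _)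
    rw [h9, h2]; ring
  have hfz : f = 0 := by
    ext v
    by_contra hv
    have h10 := mul_right_cancel₀ hv (hff v)
    apply hne
    rw [h1α, hαC] at h10
    have : (N : ℂ) = (d : ℂ) ^ 2 := by
      field_simp at h10
      have h11 : (d : ℂ) * (d - 1) = (N - d) := by
        linear_combination h10
      linear_combination -h11
    exact_mod_cast this
  refine ⟨?_, hfz⟩
  funext m
  have := hcm m
  rw [hfz] at this
  simp only [LinearMap.zero_apply, zero_mul] at this
  rcases mul_eq_zero.mp this with h12 | h12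
  · exact absurd h12 h1α0
  · simpa using h12

/-- Core statement: an equiangular tight frame of `N` vectors in a `d`-dimensional complex inner
product space satisfies `N = d ^ 2` or `N + d ≤ d ^ 2 + 1`. -/
theorem core [FiniteDimensional ℂ E] {N d : ℕ} (hd : 2 ≤ d) (hN : 2 ≤ N) (hE : finrank ℂ E = d)
    (x : Fin N → E) (α : ℝ)
    (hα : α = ((N : ℝ) - d) / (d * ((N : ℝ) - 1)))
    (hunit : ∀ l, ‖x l‖ = 1) (hang : ∀ l m, l ≠ m → ‖(inner ℂ (x l) (x m) : ℂ)‖ ^ 2 = α)
    (htight : ∀ v : E, ∑ l, (inner ℂ (x l) v : ℂ) • x l = ((N : ℂ) / d) • v) :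
    N = d ^ 2 ∨ N + d ≤ d ^ 2 + 1 := by
  by_cases hne : N = d ^ 2
  · exact Or.inl hne
  right
  let i : Fin N := ⟨0, by omega⟩
  let K : Submodule ℂ (E →ₗ[ℂ] ℂ) := LinearMap.ker (LinearMap.applyₗ (x i) : (E →ₗ[ℂ] ℂ) →ₗ[ℂ] ℂ)
  have hK : d ≤ finrank ℂ K + 1 := by
    have h1 := LinearMap.finrank_range_add_finrank_ker
      (LinearMap.applyₗ (x i) : (E →ₗ[ℂ] ℂ) →ₗ[ℂ] ℂ)
    have h2 : finrank ℂ (LinearMap.range (LinearMap.applyₗ (x i) : (E →ₗ[ℂ] ℂ) →ₗ[ℂ] ℂ)) ≤ 1 := by
      have := Submodule.finrank_le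
        (LinearMap.range (LinearMap.applyₗ (x i) : (E →ₗ[ℂ] ℂ) →ₗ[ℂ] ℂ))
      rwa [finrank_self] at this
    have h3 : finrank ℂ (E →ₗ[ℂ] ℂ) = d := by
      rw [Module.finrank_linearMap, hE, finrank_self, mul_one]
    rw [h3] at h1
    change d ≤ finrank ℂ (LinearMap.ker _) + 1
    omega
  let A : (Fin N → ℂ) →ₗ[ℂ] (E →ₗ[ℂ] E) :=
    Fintype.linearCombination ℂ (fun l => ((innerSL ℂ (x l) : E →L[ℂ] ℂ) : E →ₗ[ℂ] ℂ).smulRight (x l))
  let B : K →ₗ[ℂ] (E →ₗ[ℂ] E) := (LinearMap.smulRightₗ.flip (x i)) ∘ₗ K.subtype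
  have hinj : Function.Injective (A.coprod (-B)) := by
    rw [← LinearMap.ker_eq_bot, LinearMap.ker_eq_bot']
    rintro ⟨c, f⟩ hcf
    have := key hd hN x α hα hunit hang htight hne i c (f : E →ₗ[ℂ] ℂ) (LinearMap.mem_ker.mp f.2) ?_
    · ext j
      · simp [this.1]
      · simp [this.2]
    · intro v
      have h5 := LinearMap.congr_fun hcf v
      simp [A, B, Fintype.linearCombination_apply, LinearMap.sum_apply] at h5
      rw [add_neg_eq_zero] at h5
      exact h5
  have h6 := LinearMap.finrank_le_finrank_of_injective hinj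
  rw [Module.finrank_prod, Module.finrank_linearMap, hE] at h6
  simp at h6
  have : d * d = d ^ 2 := by ring
  omega

/-- Naimark complement of an equiangular tight frame. -/
theorem compl [FiniteDimensional ℂ E] {N d : ℕ} (hd : 1 ≤ d) (hdN : d < N)
    (hE : finrank ℂ E = d) (x : Fin N → E) (α : ℝ)
    (hα : α = ((N : ℝ) - d) / (d * ((N : ℝ) - 1)))
    (hunit : ∀ l, ‖x l‖ = 1) (hang : ∀ l m, l ≠ m → ‖(inner ℂ (x l) (x m) : ℂ)‖ ^ 2 = α)
    (htight : ∀ v : E, ∑ l, (inner ℂ (x l) v : ℂ) • x l = ((N : ℂ) / d) • v) :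
    ∃ (E' : Submodule ℂ (EuclideanSpace ℂ (Fin N))) (y : Fin N → E'), finrank ℂ E' = N - d ∧
      (∀ l, ‖y l‖ = 1) ∧
      (∀ l m, l ≠ m → ‖(inner ℂ (y l) (y m) : ℂ)‖ ^ 2 =
        ((N : ℝ) - (N - d : ℕ)) / ((N - d : ℕ) * ((N : ℝ) - 1))) ∧
      (∀ v : E', ∑ l, (inner ℂ (y l) v : ℂ) • y l = ((N : ℂ) / (N - d : ℕ)) • v) := by
  have hdC : (d : ℂ) ≠ 0 := by exact_mod_cast (by omega : d ≠ 0)
  have hNC : (N : ℂ) ≠ 0 := by exact_mod_cast (by omega : N ≠ 0)
  have hdR : (0 : ℝ) < d := by exact_mod_cast hd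
  have hNR : (0 : ℝ) < N := by exact_mod_cast (by omega : 0 < N)
  have hdNR : (d : ℝ) < N := by exact_mod_cast hdN
  have hN1R : (0 : ℝ) < (N : ℝ) - 1 := by
    have : (1 : ℝ) < N := by exact_mod_cast (by omega : 1 < N)
    linarith
  have hsub : ((N - d : ℕ) : ℝ) = N - d := by
    rw [Nat.cast_sub hdN.le]
  have hsubC : ((N - d : ℕ) : ℂ) = N - d := by
    rw [Nat.cast_sub hdN.le]
  have hNdC : (N : ℂ) - d ≠ 0 := by
    rw [← hsubC]; exact_mod_cast (by omega : N - d ≠ 0)
  -- the synthesis map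
  let F : EuclideanSpace ℂ (Fin N) →ₗ[ℂ] E :=
    { toFun := fun u => ∑ l, u l • x l
      map_add' := by
        intro u v
        simp [add_smul, Finset.sum_add_distrib]
      map_smul' := by
        intro c u
        simp [Finset.smul_sum, mul_smul] }
  have hF : ∀ u, F u = ∑ l, u l • x l := fun u => rfl
  -- the analysis vectors
  let T : E → EuclideanSpace ℂ (Fin N) := fun v => WithLp.toLp 2 (fun l => (inner ℂ (x l) v : ℂ))
  have hT : ∀ v l, T v l = inner ℂ (x l) v := fun v l => rfl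
  have hFT : ∀ v, F (T v) = ((N : ℂ) / d) • v := by
    intro v
    rw [hF, ← htight v]
  have hsurj : Function.Surjective F := by
    intro v
    refine ⟨((d : ℂ) / N) • T v, ?_⟩
    rw [map_smul, hFT, smul_smul]
    have : (d : ℂ) / N * (N / d) = 1 := by field_simp
    rw [this, one_smul]
  let E' : Submodule ℂ (EuclideanSpace ℂ (Fin N)) := LinearMap.ker F
  have hE' : finrank ℂ E' = N - d := by
    have h1 := LinearMap.finrank_range_add_finrank_ker F
    rw [LinearMap.range_eq_top.mpr hsurj, finrank_top, hE, finrank_euclideanSpace,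
      Fintype.card_fin] at h1
    change finrank ℂ (LinearMap.ker F) = N - d
    omega
  let u : Fin N → EuclideanSpace ℂ (Fin N) := fun l =>
    EuclideanSpace.single l (1 : ℂ) - ((d : ℂ) / N) • T (x l)
  have hu : ∀ l, u l ∈ E' := by
    intro l
    change F (u l) = 0
    simp only [u, map_sub, map_smul, hFT, smul_smul]
    have : (d : ℂ) / N * (N / d) = 1 := by field_simp
    rw [this, one_smul, hF]
    simp
  have hinner : ∀ l (w : EuclideanSpace ℂ (Fin N)), w ∈ E' → (inner ℂ (u l) w : ℂ) = w l := by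
    intro l w hw
    have hw' : F w = 0 := hw
    simp only [u, inner_sub_left, inner_smul_left]
    have h1 : (inner ℂ (T (x l)) w : ℂ) = inner ℂ (x l) (F w) := by
      rw [hF, inner_sum, PiLp.inner_apply]
      refine Finset.sum_congr rfl (fun m _ => ?_)
      rw [inner_smul_right, hT]
      simp [mul_comm]
    rw [h1, hw', inner_zero_right, mul_zero, sub_zero, EuclideanSpace.inner_single_left]
    simp
  -- scaling factor
  let s : ℝ := Real.sqrt ((N : ℝ) / (N - d))
  have hs2 : s * s = (N : ℝ) / (N - d) := Real.mul_self_sqrt (div_nonneg hNR.le (by linarith))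
  have hsC : (s : ℂ) * s = (N : ℂ) / (N - d) := by
    have := congrArg (fun r : ℝ => (r : ℂ)) hs2
    push_cast at this
    exact this
  let y : Fin N → E' := fun l => (s : ℂ) • ⟨u l, hu l⟩
  have hy : ∀ l m, (inner ℂ (y l) (y m) : ℂ) =
      ((N : ℂ) / (N - d)) * ((if l = m then 1 else 0) - ((d : ℂ) / N) * inner ℂ (x l) (x m)) := by
    intro l m
    have h1 : (inner ℂ (y l) (y m) : ℂ) = (s : ℂ) * s * inner ℂ (u l) (u m) := by
      have h0 : (inner ℂ (y l) (y m) : ℂ) = inner ℂ ((s : ℂ) • u l) ((s : ℂ) • u m) := rfl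
      rw [h0, inner_smul_left, inner_smul_right, Complex.conj_ofReal]
      ring
    rw [h1, hsC, hinner l (u m) (hu m)]
    congr 1
    simp [u, hT]
  refine ⟨E', y, hE', ?_, ?_, ?_⟩
  · intro l
    have h1 := hy l l
    have h2 : (inner ℂ (x l) (x l) : ℂ) = 1 := by
      rw [inner_self_eq_norm_sq_to_K, hunit]; simp
    rw [h2] at h1
    have h3 : ((‖y l‖ ^ 2 : ℝ) : ℂ) = 1 := by
      have h30 : (inner ℂ (y l) (y l) : ℂ) = ((‖y l‖ ^ 2 : ℝ) : ℂ) := by
        push_cast
        exact inner_self_eq_norm_sq_to_K (𝕜 := ℂ) (y l)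
      rw [← h30, h1]
      simp only [if_true]
      field_simp
    have h4 : ‖y l‖ ^ 2 = 1 := by exact_mod_cast h3
    nlinarith [norm_nonneg (y l)]
  · intro l m hlm
    rw [hy l m, if_neg hlm, zero_sub, norm_mul, norm_neg, norm_mul, mul_pow, mul_pow, hang l m hlm]
    rw [hα, hsub]
    have e1 : ‖(N : ℂ) / (N - d)‖ = (N : ℝ) / (N - d) := by
      rw [← hsubC, norm_div, Complex.norm_natCast, Complex.norm_natCast, hsub]
    have e2 : ‖(d : ℂ) / N‖ = (d : ℝ) / N := by
      rw [norm_div, Complex.norm_natCast, Complex.norm_natCast]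
    rw [e1, e2]
    have : (N : ℝ) - d ≠ 0 := by linarith
    field_simp
    ring
  · intro v
    have h1 : ∀ l, (inner ℂ (y l) v : ℂ) = s * (v : EuclideanSpace ℂ (Fin N)) l := by
      intro l
      have h0 : (inner ℂ (y l) v : ℂ) =
          inner ℂ ((s : ℂ) • u l) (v : EuclideanSpace ℂ (Fin N)) := rfl
      rw [h0, inner_smul_left, Complex.conj_ofReal, hinner l _ v.2]
    have hv : F (v : EuclideanSpace ℂ (Fin N)) = 0 := v.2
    apply Subtype.ext
    rw [Submodule.coe_sum]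
    simp only [Submodule.coe_smul, h1, y, smul_smul]
    have h2 : ∀ l, ((s : ℂ) * (v : EuclideanSpace ℂ (Fin N)) l * s) • u l =
        ((N : ℂ) / (N - d)) • ((v : EuclideanSpace ℂ (Fin N)) l • u l) := by
      intro l
      rw [smul_smul, ← hsC]
      congr 1; ring
    rw [Finset.sum_congr rfl (fun l _ => h2 l), ← Finset.smul_sum, hsubC]
    congr 1
    ext m
    have h3 : ∑ l, (v : EuclideanSpace ℂ (Fin N)) l * inner ℂ (x m) (x l) = 0 := by
      have := congrArg (fun w => (inner ℂ (x m) w : ℂ)) hv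
      simp only [hF, inner_sum, inner_smul_right, inner_zero_right] at this
      exact this
    have h4 : (∑ l, (v : EuclideanSpace ℂ (Fin N)) l • u l) m =
        ∑ l, (v : EuclideanSpace ℂ (Fin N)) l * (u l m) := by
      simp
    rw [h4]
    have h5 : ∀ l, (v : EuclideanSpace ℂ (Fin N)) l * (u l m) =
        (if m = l then (v : EuclideanSpace ℂ (Fin N)) l else 0) -
          ((d : ℂ) / N) * ((v : EuclideanSpace ℂ (Fin N)) l * inner ℂ (x m) (x l)) := by
      intro l
      simp only [u, PiLp.sub_apply, PiLp.smul_apply, hT, PiLp.single_apply, smul_eq_mul]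
      split_ifs <;> ring
    rw [Finset.sum_congr rfl (fun l _ => h5 l), Finset.sum_sub_distrib, ← Finset.mul_sum, h3]
    simp

end abstract_part

lemma inner_le_coherence {N d : ℕ} (g : Fin N → EuclideanSpace ℂ (Fin d)) {k l : Fin N}
    (h : k ≠ l) : ‖(inner ℂ (g k) (g l) : ℂ)‖ ≤ coherence g := by
  have : BddAbove (Set.range (fun p : {p : Fin N × Fin N // p.1 ≠ p.2} =>
      ‖(inner ℂ (g p.1.1) (g p.1.2) : ℂ)‖)) := Set.Finite.bddAbove (Set.finite_range _)
  exact le_ciSup this ⟨(k, l), h⟩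

lemma coherence_nonneg {N d : ℕ} (g : Fin N → EuclideanSpace ℂ (Fin d)) : 0 ≤ coherence g :=
  Real.iSup_nonneg (fun _ => norm_nonneg _)

/-- If the infimum is `w ≠ 0`, then there is a unit-norm system all of whose inner products are
bounded by `w`. -/
lemma exists_system {N d : ℕ} {w : ℝ} (hw : w ≠ 0) (h : cFrame N d = w) :
    ∃ g : Fin N → EuclideanSpace ℂ (Fin d), (∀ k, ‖g k‖ = 1) ∧
      ∀ k l, k ≠ l → ‖(inner ℂ (g k) (g l) : ℂ)‖ ≤ w := by
  classical
  set S : Set ℝ := {m : ℝ | ∃ g : Fin N → EuclideanSpace ℂ (Fin d),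
    (∀ k, ‖g k‖ = 1) ∧ Submodule.span ℂ (Set.range g) = ⊤ ∧ coherence g = m} with hS
  have hne : S.Nonempty := by
    by_contra hcon
    rw [Set.not_nonempty_iff_eq_empty] at hcon
    apply hw
    rw [← h, cFrame, ← hS, hcon, Real.sInf_empty]
  have hcF : sInf S = w := h
  -- for every n a system with coherence ≤ w + 1/(n+1)
  have hex : ∀ n : ℕ, ∃ g : Fin N → EuclideanSpace ℂ (Fin d), (∀ k, ‖g k‖ = 1) ∧
      ∀ k l, k ≠ l → ‖(inner ℂ (g k) (g l) : ℂ)‖ ≤ w + 1 / ((n : ℝ) + 1) := by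
    intro n
    have hpos : (0 : ℝ) < 1 / ((n : ℝ) + 1) := by positivity
    obtain ⟨m, ⟨g, hg1, -, hg3⟩, hm⟩ := exists_lt_of_csInf_lt hne
      (show sInf S < w + 1 / ((n : ℝ) + 1) by rw [hcF]; linarith)
    refine ⟨g, hg1, fun k l hkl => ?_⟩
    have := inner_le_coherence g hkl
    rw [hg3] at this
    linarith
  choose g hg1 hg2 using hex
  have hK : IsCompact (Set.univ.pi (fun _ : Fin N => Metric.sphere (0 : EuclideanSpace ℂ (Fin d)) 1)) :=
    isCompact_univ_pi (fun _ => isCompact_sphere 0 1)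
  obtain ⟨a, ha, φ, hφ, hlim⟩ := hK.tendsto_subseq (x := g) (by
    intro n
    rw [Set.mem_univ_pi]
    intro k
    simp [hg1 n k])
  refine ⟨a, ?_, ?_⟩
  · intro k
    rw [Set.mem_univ_pi] at ha
    simpa using ha k
  · intro k l hkl
    have h1 : Filter.Tendsto (fun n => ‖(inner ℂ ((g ∘ φ) n k) ((g ∘ φ) n l) : ℂ)‖)
        Filter.atTop (nhds ‖(inner ℂ (a k) (a l) : ℂ)‖) := by
      have hk := (tendsto_pi_nhds.mp hlim) k
      have hl := (tendsto_pi_nhds.mp hlim) l
      exact (Filter.Tendsto.inner hk hl).norm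
    have h2 : Filter.Tendsto (fun n => w + 1 / (((φ n : ℕ) : ℝ) + 1)) Filter.atTop (nhds (w + 0)) := by
      apply Filter.Tendsto.const_add
      have := (tendsto_one_div_add_atTop_nhds_zero_nat (𝕜 := ℝ)).comp hφ.tendsto_atTop
      exact this
    have h3 := le_of_tendsto_of_tendsto' h1 h2 (fun n => hg2 (φ n) k l hkl)
    simpa using h3

/-- Equality in the Welch bound. -/
lemma welch_eq {N d : ℕ} (hd : 1 ≤ d) (hN : 2 ≤ N) (g : Fin N → EuclideanSpace ℂ (Fin d)) (α : ℝ)
    (hα : α = ((N : ℝ) - d) / (d * ((N : ℝ) - 1)))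
    (hunit : ∀ l, ‖g l‖ = 1) (hang : ∀ l m, l ≠ m → ‖(inner ℂ (g l) (g m) : ℂ)‖ ^ 2 ≤ α) :
    (∀ l m, l ≠ m → ‖(inner ℂ (g l) (g m) : ℂ)‖ ^ 2 = α) ∧
    (∀ v : EuclideanSpace ℂ (Fin d), ∑ l, (inner ℂ (g l) v : ℂ) • g l = ((N : ℂ) / d) • v) := by
  have hdR : (0 : ℝ) < d := by exact_mod_cast hd
  have hNR : (0 : ℝ) < N := by exact_mod_cast (by omega : 0 < N)
  have hN1R : (0 : ℝ) < (N : ℝ) - 1 := by
    have : (1 : ℝ) < N := by exact_mod_cast (by omega : 1 < N)
    linarith
  -- matrices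
  let X : Matrix (Fin d) (Fin N) ℂ := Matrix.of (fun a l => g l a)
  let S : Matrix (Fin d) (Fin d) ℂ := X * X.conjTranspose - ((N : ℂ) / d) • (1 : Matrix (Fin d) (Fin d) ℂ)
  have hG : ∀ k l, (X.conjTranspose * X) k l = inner ℂ (g k) (g l) := by
    intro k l
    rw [Matrix.mul_apply, PiLp.inner_apply]
    refine Finset.sum_congr rfl (fun a _ => ?_)
    simp [X, mul_comm]
  have htr1 : (X * X.conjTranspose).trace = N := by
    rw [Matrix.trace_mul_comm, Matrix.trace]
    have : ∀ k, (X.conjTranspose * X).diag k = 1 := by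
      intro k
      rw [Matrix.diag_apply, hG, inner_self_eq_norm_sq_to_K, hunit]; simp
    rw [Finset.sum_congr rfl (fun k _ => this k)]
    simp
  have htr2 : (X * X.conjTranspose * (X * X.conjTranspose)).trace =
      ((∑ k, ∑ l, ‖(inner ℂ (g k) (g l) : ℂ)‖ ^ 2 : ℝ) : ℂ) := by
    have h1 : (X * X.conjTranspose * (X * X.conjTranspose)).trace =
        ((X.conjTranspose * X) * (X.conjTranspose * X)).trace := by
      rw [Matrix.mul_assoc, Matrix.trace_mul_comm, ← Matrix.mul_assoc, ← Matrix.mul_assoc]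
    rw [h1, Matrix.trace]
    push_cast
    refine Finset.sum_congr rfl (fun k _ => ?_)
    rw [Matrix.diag_apply, Matrix.mul_apply]
    refine Finset.sum_congr rfl (fun l _ => ?_)
    rw [hG, hG, ← inner_conj_symm (g l) (g k), Complex.mul_conj, Complex.normSq_eq_norm_sq]
    push_cast
    rfl
  have hSH : S.conjTranspose = S := by
    simp only [S, Matrix.conjTranspose_sub, Matrix.conjTranspose_mul,
      Matrix.conjTranspose_conjTranspose, Matrix.conjTranspose_smul, Matrix.conjTranspose_one]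
    congr 2
    simp
  have hdC : (d : ℂ) ≠ 0 := by exact_mod_cast hdR.ne'
  have htrS : (S * S.conjTranspose).trace =
      ((∑ k, ∑ l, ‖(inner ℂ (g k) (g l) : ℂ)‖ ^ 2 - (N : ℝ) ^ 2 / d : ℝ) : ℂ) := by
    rw [hSH]
    simp only [S]
    rw [Matrix.sub_mul, Matrix.mul_sub, Matrix.mul_sub]
    simp only [Matrix.mul_smul, Matrix.smul_mul, Matrix.mul_one, Matrix.one_mul, Matrix.trace_sub,
      Matrix.trace_smul, htr1, htr2, Matrix.trace_one, Fintype.card_fin, smul_eq_mul]
    push_cast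
    field_simp
    ring
  have hsum : ∑ k, ∑ l, ‖(inner ℂ (g k) (g l) : ℂ)‖ ^ 2 =
      (N : ℝ) ^ 2 / d - ∑ k, ∑ l, (if k = l then 0 else α - ‖(inner ℂ (g k) (g l) : ℂ)‖ ^ 2) := by
    have h1 : ∀ k l, ‖(inner ℂ (g k) (g l) : ℂ)‖ ^ 2 =
        (if k = l then (1 - α) else 0) + α - (if k = l then 0 else α - ‖(inner ℂ (g k) (g l) : ℂ)‖ ^ 2) := by
      intro k l
      split_ifs with hkl
      · subst hkl
        have : ‖(inner ℂ (g k) (g k) : ℂ)‖ = 1 := by
          rw [inner_self_eq_norm_sq_to_K, hunit]; simp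
        rw [this]; ring
      · ring
    have h2 : ∑ k : Fin N, ∑ l : Fin N, ((if k = l then (1 - α) else 0) + α) = (N : ℝ) ^ 2 / d := by
      simp only [Finset.sum_add_distrib, Finset.sum_ite_eq, Finset.mem_univ, if_true,
        Finset.sum_const, Finset.card_univ, Fintype.card_fin, nsmul_eq_mul]
      rw [hα]
      field_simp
      ring
    rw [← h2, ← Finset.sum_sub_distrib]
    refine Finset.sum_congr rfl (fun k _ => ?_)
    rw [← Finset.sum_sub_distrib]
    exact Finset.sum_congr rfl (fun l _ => h1 k l)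
  have hnn : ∀ k l, 0 ≤ (if k = l then 0 else α - ‖(inner ℂ (g k) (g l) : ℂ)‖ ^ 2) := by
    intro k l
    split_ifs with hkl
    · exact le_rfl
    · linarith [hang k l hkl]
  have hSnn : (0 : ℝ) ≤ ∑ k, ∑ l, ‖(inner ℂ (g k) (g l) : ℂ)‖ ^ 2 - (N : ℝ) ^ 2 / d := by
    have h1 : (S * S.conjTranspose).trace = ((∑ a, ∑ b, ‖S a b‖ ^ 2 : ℝ) : ℂ) := by
      rw [Matrix.trace]
      push_cast
      refine Finset.sum_congr rfl (fun a _ => ?_)
      rw [Matrix.diag_apply, Matrix.mul_apply]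
      refine Finset.sum_congr rfl (fun b _ => ?_)
      rw [Matrix.conjTranspose_apply, Complex.star_def, Complex.mul_conj, Complex.normSq_eq_norm_sq]
      push_cast
      rfl
    rw [h1] at htrS
    have h2 := Complex.ofReal_injective htrS
    rw [← h2]
    exact Finset.sum_nonneg (fun a _ => Finset.sum_nonneg (fun b _ => by positivity))
  have hdef : ∑ k, ∑ l, (if k = l then 0 else α - ‖(inner ℂ (g k) (g l) : ℂ)‖ ^ 2) = 0 := by
    apply le_antisymm
    · rw [hsum] at hSnn; linarith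
    · exact Finset.sum_nonneg (fun a _ => Finset.sum_nonneg (fun b _ => hnn a b))
  constructor
  · intro l m hlm
    have h1 := (Finset.sum_eq_zero_iff_of_nonneg
      (fun a _ => Finset.sum_nonneg (fun b _ => hnn a b))).mp hdef l (Finset.mem_univ l)
    have h2 := (Finset.sum_eq_zero_iff_of_nonneg (fun b _ => hnn l b)).mp h1 m (Finset.mem_univ m)
    rw [if_neg hlm] at h2
    linarith
  · have hS0 : S = 0 := by
      have h3 : (S * S.conjTranspose).trace = 0 := by
        rw [htrS, hsum, hdef]; simp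
      exact Matrix.trace_mul_conjTranspose_self_eq_zero_iff.mp h3
    intro v
    have h4 : X * X.conjTranspose = ((N : ℂ) / d) • (1 : Matrix (Fin d) (Fin d) ℂ) :=
      sub_eq_zero.mp hS0
    ext a
    have h5 := congrFun (congrArg (fun M : Matrix (Fin d) (Fin d) ℂ => M.mulVec (fun b => v b)) h4) a
    simp only [← Matrix.mulVec_mulVec] at h5
    rw [Matrix.smul_mulVec, Matrix.one_mulVec] at h5
    have h6 : (∑ l, (inner ℂ (g l) v : ℂ) • g l) a = (X.mulVec (X.conjTranspose.mulVec (fun b => v b))) a := by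
      simp only [Matrix.mulVec, dotProduct, X]
      simp
      refine Finset.sum_congr rfl (fun l _ => ?_)
      rw [PiLp.inner_apply, mul_comm]
      congr 1
      refine Finset.sum_congr rfl (fun b _ => ?_)
      simp [mul_comm]
    rw [h6, h5]
    simp


/-- **Main result.** If `2 ≤ N`, `1 ≤ d ≤ N` and the Welch bound is attained by
`c^frame_ℂ(N,d)`, then, for each of the two numbers `e = d` and `e = N - d` that is at least `2`,
either `N = e ^ 2` or `N ≤ e ^ 2 - e + 1`. -/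
theorem gap (N d : ℕ) (hN : 2 ≤ N) (hd : 1 ≤ d) (hdN : d ≤ N)
    (h : cFrame N d = Real.sqrt (((N : ℝ) - d) / (d * ((N : ℝ) - 1)))) :
    (2 ≤ d → N = d ^ 2 ∨ N ≤ d ^ 2 - d + 1) ∧
    (2 ≤ N - d → N = (N - d) ^ 2 ∨ N ≤ (N - d) ^ 2 - (N - d) + 1) := by
  rcases hdN.eq_or_lt with hEq | hlt
  · -- `N = d`
    subst hEq
    refine ⟨fun _ => Or.inr ?_, fun h2 => by omega⟩
    have h1 : 2 * d ≤ d ^ 2 := by nlinarith
    omega
  have hdR : (0 : ℝ) < d := by exact_mod_cast hd
  have hNdR : (d : ℝ) < N := by exact_mod_cast hlt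
  have hN1R : (0 : ℝ) < (N : ℝ) - 1 := by
    have : (1 : ℝ) < N := by exact_mod_cast (by omega : 1 < N)
    linarith
  have hpos : 0 < ((N : ℝ) - d) / (d * ((N : ℝ) - 1)) := by
    apply div_pos (by linarith) (mul_pos hdR hN1R)
  obtain ⟨g, hg1, hg2⟩ := exists_system (Real.sqrt_ne_zero'.mpr hpos) h
  obtain ⟨hang, htight⟩ := welch_eq hd hN g _ rfl hg1 (fun l m hlm => by
    have h1 := hg2 l m hlm
    calc ‖(inner ℂ (g l) (g m) : ℂ)‖ ^ 2 ≤ (Real.sqrt (((N : ℝ) - d) / (d * ((N : ℝ) - 1)))) ^ 2 :=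
          pow_le_pow_left₀ (norm_nonneg _) h1 2
      _ = _ := Real.sq_sqrt hpos.le)
  have hfin : finrank ℂ (EuclideanSpace ℂ (Fin d)) = d := by simp
  constructor
  · intro h2
    rcases core h2 hN hfin g _ rfl hg1 hang htight with h3 | h3
    · exact Or.inl h3
    · right; omega
  · intro h2
    obtain ⟨E', y, hE', hy1, hy2, hy3⟩ := compl hd hlt hfin g _ rfl hg1 hang htight
    rcases core h2 hN hE' y _ rfl hy1 hy2 hy3 with h3 | h3
    · exact Or.inl h3
    · right; omega

end SicEtf
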