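import Pool.Agent.Lib_MP_3de5be_sic.OfFid

/-!
# The top of the range of complex equiangular tight frames

Conditional on the existence of Weyl-Heisenberg covariant SIC fiducials in all dimensions `≥ 2`.
-/

set_option autoImplicit false

namespace SicEtf

open Ghost

/-- If there are Weyl-Heisenberg covariant SIC fiducials in all dimensions `≥ 2`, then, for
`e = d` or `e = N - d` with `e ≥ 2` and `N > e ^ 2 - e + 1`, the Welch bound is attained by
`c^frame_ℂ(N,d)` if and only if `N = e ^ 2`. -/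
theorem topRange
    (hz : ∀ (d : ℕ) [NeZero d], 2 ≤ d → ∃ φ : ZMod d → ℂ, ∑ i, ‖φ i‖ ^ 2 = 1 ∧
      ∀ a b : ZMod d, ¬(a = 0 ∧ b = 0) → ‖braket φ (displacement d a b) φ‖ ^ 2 = 1 / ((d : ℝ) + 1))
    (N d : ℕ) (hN : 2 ≤ N) (hd : 1 ≤ d) (hdN : d ≤ N) (e : ℕ) (he : e = d ∨ e = N - d)
    (he2 : 2 ≤ e) (htop : e ^ 2 - e + 1 < N) :
    cFrame N d = Real.sqrt (((N : ℝ) - d) / (d * ((N : ℝ) - 1))) ↔ N = e ^ 2 := by
  constructor
  · intro h
    obtain ⟨h1, h2⟩ := gap N d hN hd hdN h
    rcases he with rfl | rfl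
    · rcases h1 he2 with h3 | h3
      · exact h3
      · omega
    · rcases h2 he2 with h3 | h3
      · exact h3
      · omega
  · intro h
    have hne : NeZero e := ⟨by omega⟩
    obtain ⟨φ, hφ1, hφ2⟩ := hz e he2
    obtain ⟨h1, h2⟩ := of_fiducial he2 φ hφ1 hφ2
    rcases he with rfl | he
    · subst h
      exact h1
    · have hde : N - e = d := by omega
      rw [← h, hde] at h2
      exact h2

end SicEtf
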